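import Pool.Agent.H34.CGS.Stmts

set_option autoImplicit false

noncomputable section

namespace Pool.CGS

open Pool.CGR

namespace SDCaux

variable {α M : Type} [DecidableEq α] [AddCommMonoid M]

/-- the sum of `F u v` over all splittings `w = u a v` -/
def P (a : α) (F : List α → List α → M) (w : List α) : M :=
  ∑ k ∈ Finset.range w.length, if w[k]? = some a then F (w.take k) (w.drop (k + 1)) else 0

theorem P_nil (a : α) (F : List α → List α → M) : P a F [] = 0 := by
  simp [P]

theorem P_cons (a c : α) (F : List α → List α → M) (w : List α) :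
    P a F (c :: w) = (if c = a then F [] w else 0) + P a (fun u v => F (c :: u) v) w := by
  unfold P
  rw [List.length_cons, Finset.sum_range_succ', add_comm]
  congr 1
  simp

theorem P_add (a : α) (F G : List α → List α → M) (w : List α) :
    P a (fun u v => F u v + G u v) w = P a F w + P a G w := by
  unfold P
  rw [← Finset.sum_add_distrib]
  refine Finset.sum_congr rfl fun k _ => ?_
  split_ifs
  · rfl
  · rw [add_zero]

theorem P_ite (a : α) (p : Prop) [Decidable p] (F : List α → List α → M) (w : List α) :
    P a (fun u v => if p then F u v else 0) w = if p then P a F w else 0 := by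
  by_cases h : p
  · simp [h]
  · simp [h, P]

theorem P_append (a : α) (u : List α) : ∀ (F : List α → List α → M) (v : List α),
    P a F (u ++ v) = P a (fun p q => F p (q ++ v)) u + P a (fun p q => F (u ++ p) q) v := by
  induction u with
  | nil => intro F v; rw [P_nil, zero_add]; rfl
  | cons c u ih =>
    intro F v
    rw [List.cons_append, P_cons, P_cons, ih, add_assoc]
    rfl

theorem exch (a b : α) (W : List α) : ∀ (G1 G2 : List α → List α → List α → M),
    P a (fun u v => P b (fun p q => G1 p q v) u + P b (fun p q => G2 u p q) v) W =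
      P b (fun u v => P a (fun p q => G1 u p q) v + P a (fun p q => G2 p q v) u) W := by
  induction W with
  | nil => intro G1 G2; rw [P_nil, P_nil]
  | cons c W ih =>
    intro G1 G2
    have h1 : ∀ u v : List α, P b (fun p q => G1 p q v) (c :: u) + P b (fun p q => G2 (c :: u) p q) v
        = (if c = b then G1 [] u v else 0) +
          (P b (fun p q => G1 (c :: p) q v) u + P b (fun p q => G2 (c :: u) p q) v) := by
      intro u v
      rw [P_cons, add_assoc]
    have h2 : ∀ u v : List α, P a (fun p q => G1 (c :: u) p q) v + P a (fun p q => G2 p q v) (c :: u)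
        = (if c = a then G2 [] u v else 0) +
          (P a (fun p q => G1 (c :: u) p q) v + P a (fun p q => G2 (c :: p) q v) u) := by
      intro u v
      rw [P_cons]
      abel
    rw [P_cons, P_cons, P_nil, P_nil, zero_add, add_zero]
    simp only [h1, h2]
    conv_lhs => rw [P_add, P_ite, ih (fun p q r => G1 (c :: p) q r) (fun p q r => G2 (c :: p) q r)]
    conv_rhs => rw [P_add, P_ite]
    abel

theorem P_inl {m : ℕ} (j : Fin m) (F : List (Fin m ⊕ Fin m) → List (Fin m ⊕ Fin m) → M)
    (d : List (Fin m)) : P (Sum.inr j) F (d.map Sum.inl) = 0 := by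
  unfold P
  refine Finset.sum_eq_zero fun k hk => ?_
  rw [if_neg]
  intro h
  rw [List.getElem?_map] at h
  obtain ⟨o, ho⟩ : ∃ o : Option (Fin m), d[k]? = o := ⟨_, rfl⟩
  rw [ho] at h
  cases o <;> simp at h

theorem ev_append {B : Type} [Monoid B] (x : α → B) (u v : List α) :
    ev x (u ++ v) = ev x u * ev x v := by
  simp [ev]

theorem tau_P {A : Type} [Ring A] [Algebra ℂ A] (τ : A →ₗ[ℂ] ℂ) (a : α)
    (F : List α → List α → A) (w : List α) :
    τ (P a F w) = P a (fun u v => τ (F u v)) w := by
  unfold P
  rw [map_sum]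
  refine Finset.sum_congr rfl fun k _ => ?_
  split_ifs
  · rfl
  · exact map_zero _

theorem mul_P {A : Type} [Ring A] (s : A) (a : α) (F : List α → List α → A) (w : List α) :
    s * P a F w = P a (fun u v => s * F u v) w := by
  unfold P
  rw [Finset.mul_sum]
  refine Finset.sum_congr rfl fun k _ => ?_
  split_ifs
  · rfl
  · exact mul_zero _

theorem P_mul {A : Type} [Ring A] (s : A) (a : α) (F : List α → List α → A) (w : List α) :
    P a F w * s = P a (fun u v => F u v * s) w := by
  unfold P
  rw [Finset.sum_mul]
  refine Finset.sum_congr rfl fun k _ => ?_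
  split_ifs
  · rfl
  · exact zero_mul _

theorem dv_P {B : Type} [Ring B] (x : α → B) (i : α) (a : B) (w : List α) :
    dv x i a w = P i (fun u v => ev x u * a * ev x v) w := rfl

theorem dq_P (φ : List α → ℂ) (i : α) (w : List α) :
    dq φ i w = P i (fun u v => φ u * φ v) w := rfl

end SDCaux

open SDCaux in
theorem sdc_thm : SDCStmt := by
  intro m A _ τ _ x S hS i j c W
  set z : Fin m ⊕ Fin m → A := Sum.elim x S with hz
  have hc : ev x c = ev z (c.map Sum.inl) := by
    simp [ev, hz, Function.comp_def]
  set c' : List (Fin m ⊕ Fin m) := c.map Sum.inl with hc'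
  rw [hc]
  have hR : ∀ u v : List (Fin m ⊕ Fin m),
      τ (dv z (Sum.inl i) (ev z c') u) * τ (ev z v) + τ (ev z u) * τ (dv z (Sum.inl i) (ev z c') v) =
        SDCaux.P (Sum.inl i) (fun p q => τ (ev z u) * τ (ev z (p ++ c' ++ q))) v +
        SDCaux.P (Sum.inl i) (fun p q => τ (ev z (p ++ c' ++ q)) * τ (ev z v)) u := by
    intro u v
    rw [dv_P, dv_P, tau_P, tau_P, P_mul, mul_P, add_comm]
    simp only [ev_append]
  have hL : τ (S j * dv z (Sum.inl i) (ev z c') W) =
      SDCaux.P (Sum.inl i) (fun u v => SDCaux.P (Sum.inr j) (fun p q => τ (ev z p) * τ (ev z (q ++ c' ++ v))) u +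
        SDCaux.P (Sum.inr j) (fun p q => τ (ev z (u ++ c' ++ p)) * τ (ev z q)) v) W := by
    rw [dv_P, mul_P, tau_P]
    congr 1
    funext u v
    have h1 := hS j (u ++ c' ++ v)
    rw [dq_P, ← hz, P_append, P_append, P_inl, add_zero] at h1
    rw [← ev_append, ← ev_append, h1]
  rw [hL, exch]
  change SDCaux.P (Sum.inr j) _ W = SDCaux.P (Sum.inr j) (fun u v =>
    τ (dv z (Sum.inl i) (ev z c') u) * τ (ev z v) + τ (ev z u) * τ (dv z (Sum.inl i) (ev z c') v)) W
  simp only [hR]

end Pool.CGS
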